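import Pool.Agent.Helper56.TH.Rec

/-!
# The weight function of binary expansions in a model of `RCA₀` (block T5b of MP_6f1bc5_lc)
-/

set_option linter.unusedSectionVars false

universe u

namespace Pool.Agent.Helper56.TH

open Classical

variable {M : Type u} [CommSemiring M] [LinearOrder M] [IsStrictOrderedRing M]
  [CanonicallyOrderedAdd M] {S : Set (Set M)}

namespace ExV

/-! ### powers of two -/

theorem p_pos (h : Base S) {p : M → M} (hp : IsPow S p) (n : M) : 0 < p n := by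
  refine h.ind (P := fun n => 0 < p n) (h.lt (h.fn_const 0) hp.fn) ?_ ?_ n
  · rw [hp.zero]; exact one_pos
  · intro x hx
    rw [hp.succ]
    exact mul_pos two_pos hx

theorem p_add (h : Base S) {p : M → M} (hp : IsPow S p) (n c : M) : p (n + c) = p n * p c := by
  refine h.ind (P := fun c => p (n + c) = p n * p c)
    (h.eq (h.fn_comp hp.fn (h.fn_add (h.fn_const n) h.fn_id)) (h.fn_mul (h.fn_const _) hp.fn))
    ?_ ?_ c
  · simp [hp.zero]
  · intro x hx
    rw [← add_assoc, hp.succ, hp.succ, hx]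
    ring

theorem p_dvd (h : Base S) {p : M → M} (hp : IsPow S p) {n m : M} (hnm : n ≤ m) : p n ∣ p m := by
  obtain ⟨c, rfl⟩ := exists_add_of_le hnm
  rw [p_add h hp]
  exact dvd_mul_right _ _

theorem p_mono (h : Base S) {p : M → M} (hp : IsPow S p) {n m : M} (hnm : n ≤ m) :
    p n ≤ p m := by
  obtain ⟨c, rfl⟩ := exists_add_of_le hnm
  rw [p_add h hp]
  have : 1 ≤ p c := h.pos_iff.1 (p_pos h hp c)
  calc p n = p n * 1 := (mul_one _).symm
    _ ≤ p n * p c := mul_le_mul_right this _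

theorem p_lt_succ (h : Base S) {p : M → M} (hp : IsPow S p) (n : M) : p n < p (n + 1) := by
  rw [hp.succ, two_mul]
  exact lt_add_of_pos_right _ (p_pos h hp n)

theorem p_strict (h : Base S) {p : M → M} (hp : IsPow S p) {n m : M} (hnm : n < m) :
    p n < p m :=
  lt_of_lt_of_le (p_lt_succ h hp n) (p_mono h hp (h.add_one_le_iff.2 hnm))

theorem lt_of_p_lt (h : Base S) {p : M → M} (hp : IsPow S p) {n m : M} (hnm : p n < p m) :
    n < m := by
  by_contra hc
  exact absurd hnm (not_lt.2 (p_mono h hp (not_lt.1 hc)))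

theorem lt_p (h : Base S) {p : M → M} (hp : IsPow S p) (n : M) : n < p n := by
  refine h.ind (P := fun n => n < p n) (h.lt h.fn_id hp.fn) ?_ ?_ n
  · rw [hp.zero]; exact one_pos
  · intro x hx
    exact lt_of_le_of_lt (h.add_one_le_iff.2 hx) (p_lt_succ h hp x)

/-! ### division -/

theorem le_of_mul_lt (h : Base S) {q a b r : M} (hr : r < q) (hab : q * a ≤ q * b + r) : a ≤ b := by
  by_contra hc
  have h1 : b + 1 ≤ a := h.add_one_le_iff.2 (not_le.1 hc)
  have h2 : q * (b + 1) ≤ q * a := mul_le_mul_right h1 _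
  have h3 : q * b + q ≤ q * b + r := by
    calc q * b + q = q * (b + 1) := by ring
      _ ≤ q * a := h2
      _ ≤ _ := hab
  exact absurd hr (not_lt.2 (le_of_add_le_add_left h3))

theorem div_unique (h : Base S) {q d r d' r' : M} (hr : r < q) (hr' : r' < q)
    (he : q * d + r = q * d' + r') : d = d' ∧ r = r' := by
  have h1 : d ≤ d' := le_of_mul_lt h hr' (le_trans le_self_add he.le)
  have h2 : d' ≤ d := le_of_mul_lt h hr (le_trans le_self_add he.ge)
  have h3 : d = d' := le_antisymm h1 h2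
  subst h3
  exact ⟨rfl, add_left_cancel he⟩

theorem dvd_of_dvd_add {q a r : M} (ha : q ∣ a) (har : q ∣ a + r) :
    q ∣ r := by
  rcases eq_or_ne q 0 with rfl | hq
  · rw [zero_dvd_iff] at ha har ⊢
    rw [ha, zero_add] at har
    exact har
  have hq : 0 < q := pos_iff_ne_zero.2 hq
  obtain ⟨b, rfl⟩ := ha
  obtain ⟨c, hc⟩ := har
  have hbc : b ≤ c := by
    by_contra hcon
    have h1 : q * c < q * b := mul_lt_mul_of_pos_left (not_le.1 hcon) hq
    exact absurd (le_trans le_self_add hc.le) (not_le.2 h1)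
  obtain ⟨e, rfl⟩ := exists_add_of_le hbc
  refine ⟨e, ?_⟩
  have : q * b + r = q * b + q * e := by rw [hc]; ring
  exact add_left_cancel this

/-- multiples of `q` which are different differ by at least `q` -/
theorem add_le_of_dvd (h : Base S) {q a b : M} (ha : q ∣ a) (hb : q ∣ b) (hab : a < b) :
    a + q ≤ b := by
  obtain ⟨a', rfl⟩ := ha
  obtain ⟨b', rfl⟩ := hb
  have h1 : a' < b' := by
    by_contra hc
    exact absurd hab (not_lt.2 (mul_le_mul_right (not_lt.1 hc) _))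
  calc q * a' + q = q * (a' + 1) := by ring
    _ ≤ q * b' := mul_le_mul_right (h.add_one_le_iff.2 h1) _

theorem le_of_dvd' (h : Base S) {q b : M} (hb : q ∣ b) (hab : 0 < b) : q ≤ b := by
  have := add_le_of_dvd h (dvd_zero q) hb hab
  rwa [zero_add] at this

/-- remainder -/
noncomputable def md (q x : M) : M := lst (fun r => r ≤ x ∧ ∃ d ≤ x, x = q * d + r)

theorem md_dec (h : Base S) : Dec₂ S (fun r e : M => ∃ d ≤ p2 e, p2 e = p1 e * d + r) := by
  refine h.bex_le (t := fun p => p2 (p2 p))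
    (P := fun d p => p2 (p2 p) = p1 (p2 p) * d + p1 p) (h.fn_p2_comp h.fn_p2) ?_
  refine h.eq (h.fn_p2_comp (h.fn_p2_comp h.fn_p2)) ?_
  exact h.fn_add (h.fn_mul (h.fn_p1_comp (h.fn_p2_comp h.fn_p2)) h.fn_p1) (h.fn_p1_comp h.fn_p2)

theorem fn_md (h : Base S) : Fn₂ S (md : M → M → M) :=
  h.fn_lst_le (t := fun e => p2 e) h.fn_p2 (md_dec h)

theorem md_spec (h : Base S) {q : M} (hq : 0 < q) (x : M) :
    (∃ d, x = q * d + md q x) ∧ md q x < q := by
  have hD : Dec S (fun r => r ≤ x ∧ ∃ d ≤ x, x = q * d + r) := by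
    have h1 := h.dec_left (md_dec h) (pr q x)
    refine h.and (h.le h.fn_id (h.fn_const x)) (h.congr h1 fun r => ?_)
    simp only [h.p1_pr, h.p2_pr]
  obtain ⟨⟨h1, d, hd, h2⟩, h3⟩ := h.lst_spec hD ⟨x, le_rfl, 0, zero_le, by simp⟩
  refine ⟨⟨d, h2⟩, ?_⟩
  by_contra hc
  obtain ⟨r', hr'⟩ := exists_add_of_le (not_lt.1 hc)
  have hlt : r' < md q x := by
    rw [hr']
    exact lt_add_of_pos_left _ hq
  refine h3 r' hlt ⟨hlt.le.trans h1, d + 1, ?_, ?_⟩
  · have h4 : q * (d + 1) ≤ x := by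
      change x = q * d + md q x at h2
      rw [hr'] at h2
      calc q * (d + 1) ≤ q * (d + 1) + r' := le_self_add
        _ = q * d + (q + r') := by ring
        _ = x := h2.symm
    calc d + 1 = 1 * (d + 1) := (one_mul _).symm
      _ ≤ q * (d + 1) := mul_le_mul_left (h.pos_iff.1 hq) _
      _ ≤ x := h4
  · change x = q * d + md q x at h2
    rw [hr'] at h2
    rw [h2]
    ring_nf

theorem md_eq (h : Base S) {q x d r : M} (hx : x = q * d + r) (hr : r < q) : md q x = r := by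
  have hq : 0 < q := lt_of_le_of_lt zero_le hr
  obtain ⟨⟨d', hd'⟩, h2⟩ := md_spec h hq x
  exact (div_unique h h2 hr (hd'.symm.trans hx)).2

theorem md_of_lt (h : Base S) {q x : M} (hx : x < q) : md q x = x :=
  md_eq h (d := 0) (by simp) hx

theorem md_of_dvd (h : Base S) {q x : M} (hq : 0 < q) (hx : q ∣ x) : md q x = 0 := by
  obtain ⟨d, rfl⟩ := hx
  exact md_eq h (d := d) (by simp) hq

theorem md_pos (h : Base S) {q x : M} (hq : 0 < q) (hx : ¬ q ∣ x) : 0 < md q x := by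
  obtain ⟨⟨d, hd⟩, -⟩ := md_spec h hq x
  rcases eq_or_ne (md q x) 0 with h0 | h0
  · rw [h0, add_zero] at hd
    exact absurd ⟨d, hd⟩ hx
  · exact pos_iff_ne_zero.2 h0

theorem md_add_of_dvd (h : Base S) {q u x : M} (hq : 0 < q) (hx : q ∣ x) :
    md q (u + x) = md q u := by
  obtain ⟨⟨d, hd⟩, h2⟩ := md_spec h hq u
  obtain ⟨e, rfl⟩ := hx
  refine md_eq h (d := d + e) ?_ h2
  calc u + q * e = (q * d + md q u) + q * e := by rw [← hd]
    _ = _ := by ring

theorem md_le (h : Base S) {q x : M} (hq : 0 < q) : md q x ≤ x := by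
  obtain ⟨⟨d, hd⟩, -⟩ := md_spec h hq x
  calc md q x ≤ q * d + md q x := le_add_self
    _ = x := hd.symm

theorem dvd_md (h : Base S) {q q' x : M} (hq : 0 < q) (hx : q' ∣ x) (hqq : q' ∣ q) :
    q' ∣ md q x := by
  obtain ⟨⟨d, hd⟩, -⟩ := md_spec h hq x
  refine dvd_of_dvd_add (a := q * d) (hqq.mul_right d) ?_
  rw [← hd]
  exact hx

theorem md_add (h : Base S) {q q' u x : M} (hq : 0 < q) (hu : u < q') (hx : q' ∣ x)
    (hqq : q' ∣ q) : md q (u + x) = u + md q x := by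
  obtain ⟨⟨d, hd⟩, h2⟩ := md_spec h hq x
  refine md_eq h (d := d) ?_ ?_
  · calc u + x = u + (q * d + md q x) := by rw [← hd]
      _ = _ := by ring
  · have h3 := add_le_of_dvd h (dvd_md h hq hx hqq) hqq h2
    calc u + md q x < q' + md q x := add_lt_add_left hu _
      _ = md q x + q' := add_comm _ _
      _ ≤ q := h3

/-! ### the largest and the least exponent -/

noncomputable def top (p : M → M) (x : M) : M := lst (fun k => k ≤ x ∧ x < p (k + 1))

noncomputable def bot (p : M → M) (x : M) : M :=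
  lst (fun k => k ≤ x ∧ ¬ ∃ d ≤ x, x = p (k + 1) * d)

theorem top_dec (h : Base S) {p : M → M} (hp : IsPow S p) :
    Dec₂ S (fun k x : M => x < p (k + 1)) :=
  h.lt h.fn_p2 (h.fn_comp hp.fn (h.fn_add h.fn_p1 (h.fn_const 1)))

theorem bot_dec (h : Base S) {p : M → M} (hp : IsPow S p) :
    Dec₂ S (fun k x : M => ¬ ∃ d ≤ x, x = p (k + 1) * d) := by
  refine h.not (h.bex_le (t := fun e => p2 e) (P := fun d e => p2 e = p (p1 e + 1) * d)
    h.fn_p2 ?_)
  refine h.eq (h.fn_p2_comp h.fn_p2) (h.fn_mul (h.fn_comp hp.fn ?_) h.fn_p1)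
  exact h.fn_add (h.fn_p1_comp h.fn_p2) (h.fn_const 1)

theorem fn_top (h : Base S) {p : M → M} (hp : IsPow S p) : Fn S (top p) :=
  h.fn_lst_le (t := fun x => x) h.fn_id (top_dec h hp)

theorem fn_bot (h : Base S) {p : M → M} (hp : IsPow S p) : Fn S (bot p) :=
  h.fn_lst_le (t := fun x => x) h.fn_id (bot_dec h hp)

theorem dvd_iff (h : Base S) {q x : M} (hq : 0 < q) : (∃ d ≤ x, x = q * d) ↔ q ∣ x := by
  constructor
  · rintro ⟨d, -, hd⟩
    exact ⟨d, hd⟩
  · rintro ⟨d, hd⟩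
    refine ⟨d, ?_, hd⟩
    calc d = 1 * d := (one_mul d).symm
      _ ≤ q * d := mul_le_mul_left (h.pos_iff.1 hq) _
      _ = x := hd.symm

theorem top_spec (h : Base S) {p : M → M} (hp : IsPow S p) {x : M} (hx : 0 < x) :
    p (top p x) ≤ x ∧ x < p (top p x + 1) := by
  obtain ⟨h1, h2, h3⟩ := h.lst_le_spec (top_dec h hp) (t := x) (x := x)
    ⟨x, le_rfl, (lt_p h hp x).trans (p_lt_succ h hp x)⟩
  refine ⟨?_, h2⟩
  change p (lst (fun k => k ≤ x ∧ x < p (k + 1))) ≤ x
  rcases eq_or_ne (lst (fun k => k ≤ x ∧ x < p (k + 1))) 0 with h0 | h0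
  · rw [h0, hp.zero]
    exact h.pos_iff.1 hx
  · obtain ⟨k, hk⟩ := h.exists_pred (pos_iff_ne_zero.2 h0)
    rw [hk]
    have := h3 k (by rw [hk]; exact lt_add_of_pos_right _ one_pos)
    exact not_lt.1 this

theorem top_eq (h : Base S) {p : M → M} (hp : IsPow S p) {x k : M} (h1 : p k ≤ x)
    (h2 : x < p (k + 1)) : top p x = k := by
  have hx : 0 < x := lt_of_lt_of_le (p_pos h hp k) h1
  obtain ⟨h3, h4⟩ := top_spec h hp hx
  have h5 : k ≤ top p x := h.lt_add_one_iff.1 (lt_of_p_lt h hp (lt_of_le_of_lt h1 h4))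
  have h6 : top p x ≤ k := h.lt_add_one_iff.1 (lt_of_p_lt h hp (lt_of_le_of_lt h3 h2))
  exact le_antisymm h6 h5

theorem le_top (h : Base S) {p : M → M} (hp : IsPow S p) {x k : M} (h1 : p k ≤ x) :
    k ≤ top p x := by
  have hx : 0 < x := lt_of_lt_of_le (p_pos h hp k) h1
  exact h.lt_add_one_iff.1 (lt_of_p_lt h hp (lt_of_le_of_lt h1 (top_spec h hp hx).2))

theorem top_lt (h : Base S) {p : M → M} (hp : IsPow S p) {x k : M} (hx : 0 < x)
    (h1 : x < p k) : top p x < k :=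
  lt_of_p_lt h hp (lt_of_le_of_lt (top_spec h hp hx).1 h1)

theorem bot_spec (h : Base S) {p : M → M} (hp : IsPow S p) {x : M} (hx : 0 < x) :
    p (bot p x) ∣ x ∧ ¬ p (bot p x + 1) ∣ x := by
  obtain ⟨h1, h2, h3⟩ := h.lst_le_spec (bot_dec h hp) (t := x) (x := x) (by
    refine ⟨x, le_rfl, ?_⟩
    rw [dvd_iff h (p_pos h hp _)]
    intro hd
    exact absurd ((lt_p h hp x).trans (p_lt_succ h hp x)) (not_lt.2 (le_of_dvd' h hd hx)))
  rw [dvd_iff h (p_pos h hp _)] at h2
  refine ⟨?_, h2⟩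
  change p (lst (fun k => k ≤ x ∧ ¬ ∃ d ≤ x, x = p (k + 1) * d)) ∣ x
  rcases eq_or_ne (lst (fun k => k ≤ x ∧ ¬ ∃ d ≤ x, x = p (k + 1) * d)) 0 with h0 | h0
  · rw [h0, hp.zero]
    exact one_dvd _
  · obtain ⟨k, hk⟩ := h.exists_pred (pos_iff_ne_zero.2 h0)
    rw [hk]
    have := h3 k (by rw [hk]; exact lt_add_of_pos_right _ one_pos)
    rw [dvd_iff h (p_pos h hp _), not_not] at this
    exact this

theorem le_bot (h : Base S) {p : M → M} (hp : IsPow S p) {x k : M} (hx : 0 < x)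
    (h1 : p k ∣ x) : k ≤ bot p x := by
  by_contra hc
  have h2 := h.add_one_le_iff.2 (not_le.1 hc)
  exact (bot_spec h hp hx).2 ((p_dvd h hp h2).trans h1)

theorem bot_eq (h : Base S) {p : M → M} (hp : IsPow S p) {x k : M} (hx : 0 < x)
    (h1 : p k ∣ x) (h2 : ¬ p (k + 1) ∣ x) : bot p x = k := by
  have h3 := le_bot h hp hx h1
  refine le_antisymm ?_ h3
  by_contra hc
  have h4 := h.add_one_le_iff.2 (not_le.1 hc)
  exact h2 ((p_dvd h hp h4).trans (bot_spec h hp hx).1)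

theorem bot_le_top (h : Base S) {p : M → M} (hp : IsPow S p) {x : M} (hx : 0 < x) :
    bot p x ≤ top p x :=
  le_top h hp (le_of_dvd' h (bot_spec h hp hx).1 hx)

theorem top_add (h : Base S) {p : M → M} (hp : IsPow S p) {u x k : M} (hx : 0 < x)
    (hu : u < p k) (hk : p k ∣ x) : top p (u + x) = top p x := by
  obtain ⟨h1, h2⟩ := top_spec h hp hx
  have h3 : k < top p x + 1 := lt_of_p_lt h hp (lt_of_le_of_lt (le_of_dvd' h hk hx) h2)
  refine top_eq h hp (le_trans h1 le_add_self) ?_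
  calc u + x < p k + x := add_lt_add_left hu _
    _ = x + p k := add_comm _ _
    _ ≤ p (top p x + 1) := add_le_of_dvd h hk (p_dvd h hp h3.le) h2

theorem bot_add (h : Base S) {p : M → M} (hp : IsPow S p) {u x k : M} (hu0 : 0 < u)
    (hu : u < p k) (hk : p k ∣ x) : bot p (u + x) = bot p u := by
  obtain ⟨h1, h2⟩ := bot_spec h hp hu0
  have h3 : bot p u < k := lt_of_p_lt h hp (lt_of_le_of_lt (le_of_dvd' h h1 hu0) hu)
  have h4 := h.add_one_le_iff.2 h3
  refine bot_eq h hp (lt_of_lt_of_le hu0 le_self_add) ?_ ?_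
  · exact dvd_add h1 ((p_dvd h hp h3.le).trans hk)
  · intro hc
    refine h2 (dvd_of_dvd_add (a := x) ((p_dvd h hp h4).trans hk) ?_)
    rwa [add_comm x u]

/-! ### the recursion -/

/-- the `j`-th binary digit of `x` is `1` -/
def bit (p : M → M) (j x : M) : Prop := p j ≤ md (p (j + 1)) x

theorem bit_add (h : Base S) {p : M → M} (hp : IsPow S p) {u x k j : M} (hu : u < p k)
    (hk : p k ∣ x) (hj : k ≤ j) : bit p j (u + x) ↔ bit p j x := by
  have h1 : p k ∣ p (j + 1) := p_dvd h hp (hj.trans le_self_add)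
  unfold bit
  rw [md_add h (p_pos h hp _) hu hk h1]
  constructor
  · intro h2
    by_contra hc
    have h3 := add_le_of_dvd h (dvd_md h (p_pos h hp (j + 1)) hk h1) (p_dvd h hp hj)
      (not_le.1 hc)
    have h4 : u + md (p (j + 1)) x < p j := by
      calc u + md (p (j + 1)) x < p k + md (p (j + 1)) x := add_lt_add_left hu _
        _ = md (p (j + 1)) x + p k := add_comm _ _
        _ ≤ p j := h3
    exact absurd h2 (not_le.2 h4)
  · intro h2
    exact h2.trans le_add_self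

theorem not_bit_of_lt (h : Base S) {p : M → M} (hp : IsPow S p) {x j : M} (hx : x < p j) :
    ¬ bit p j x := by
  unfold bit
  exact not_le.2 (lt_of_le_of_lt (md_le h (p_pos h hp _)) hx)

theorem not_bit_of_dvd (h : Base S) {p : M → M} (hp : IsPow S p) {x j : M}
    (hx : p (j + 1) ∣ x) : ¬ bit p j x := by
  unfold bit
  rw [md_of_dvd h (p_pos h hp _) hx]
  exact not_le.2 (p_pos h hp j)

theorem bit_bot (h : Base S) {p : M → M} (hp : IsPow S p) {x : M} (hx : 0 < x) :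
    bit p (bot p x) x := by
  obtain ⟨h1, h2⟩ := bot_spec h hp hx
  unfold bit
  have h3 : p (bot p x) ∣ md (p (bot p x + 1)) x :=
    dvd_md h (p_pos h hp _) h1 (p_dvd h hp le_self_add)
  exact le_of_dvd' h h3 (md_pos h (p_pos h hp _) h2)

/-- one step of the recursion -/
noncomputable def step (p : M → M) (Q : M → M → M → M) (n f e : M) : M :=
  if bit p n (p2 e) ∧ 0 < md (p n) (p2 e) then f + Q (p1 e) (top p (md (p n) (p2 e))) n else f

theorem fn_step (h : Base S) {p : M → M} (hp : IsPow S p) {Q : M → M → M → M} (hQ : Fn₃ S Q) :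
    Fn₃ S (step p Q) := by
  have hn : Fn S (fun w : M => p1 w) := h.fn_p1
  have hf : Fn S (fun w : M => p1 (p2 w)) := h.fn_p1_comp h.fn_p2
  have he : Fn S (fun w : M => p2 (p2 w)) := h.fn_p2_comp h.fn_p2
  have hx : Fn S (fun w : M => p2 (p2 (p2 w))) := h.fn_p2_comp he
  have hs : Fn S (fun w : M => p1 (p2 (p2 w))) := h.fn_p1_comp he
  have hm : Fn S (fun w : M => md (p (p1 w)) (p2 (p2 (p2 w)))) :=
    h.fn_comp₂ (fn_md h) (h.fn_comp hp.fn hn) hx
  have hm' : Fn S (fun w : M => md (p (p1 w + 1)) (p2 (p2 (p2 w)))) :=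
    h.fn_comp₂ (fn_md h) (h.fn_comp hp.fn (h.fn_add hn (h.fn_const 1))) hx
  refine Base.fn_congr (h.fn_ite (P := fun w => bit p (p1 w) (p2 (p2 (p2 w))) ∧
    0 < md (p (p1 w)) (p2 (p2 (p2 w)))) (f := fun w => p1 (p2 w) + Q (p1 (p2 (p2 w)))
      (top p (md (p (p1 w)) (p2 (p2 (p2 w))))) (p1 w)) ?_ ?_ hf) fun w => ?_
  · exact h.and (h.le (h.fn_comp hp.fn hn) hm') (h.lt (h.fn_const 0) hm)
  · exact h.fn_add hf (h.fn_comp₃ hQ hs (h.fn_comp (fn_top h hp) hm) hn)
  · unfold step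
    split_ifs <;> rfl

section rec

variable {p : M → M} {Q : M → M → M → M} {F : M → M → M}

theorem F_dec (h : Base S) (hF : Fn₂ S F) {a : M → M} (ha : Fn S a) (e : M) :
    Fn S (fun n => F (a n) e) :=
  h.fn_comp₂ hF ha (h.fn_const e)

/-- the recursion does not move beyond the length of `x` -/
theorem F_stab (h : Base S) (hp : IsPow S p) (hF : Fn₂ S F)
    (hFs : ∀ n e, F (n + 1) e = step p Q n (F n e) e) {s x n m : M} (hx : x < p n)
    (hnm : n ≤ m) : F m (pr s x) = F n (pr s x) := by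
  obtain ⟨c, rfl⟩ := exists_add_of_le hnm
  refine h.ind (P := fun c => F (n + c) (pr s x) = F n (pr s x))
    (h.eq (F_dec h hF (h.fn_add (h.fn_const n) h.fn_id) _) (h.fn_const _)) (by simp) ?_ c
  intro c hc
  rw [← add_assoc, hFs, hc]
  unfold step
  rw [h.p2_pr, if_neg]
  rintro ⟨h1, -⟩
  exact not_bit_of_lt h hp (lt_of_lt_of_le hx (p_mono h hp le_self_add)) h1

theorem F_congr (h : Base S) (hF : Fn₂ S F) (hF0 : ∀ e, F 0 e = 0)
    (hFs : ∀ n e, F (n + 1) e = step p Q n (F n e) e) {s x y n : M}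
    (hxy : ∀ j ≤ n, md (p j) x = md (p j) y) : F n (pr s x) = F n (pr s y) := by
  refine h.ind_le (P := fun j => F j (pr s x) = F j (pr s y)) (n := n)
    (h.eq (F_dec h hF h.fn_id _) (F_dec h hF h.fn_id _)) (by rw [hF0, hF0]) ?_ le_rfl
  intro j hj ih
  rw [hFs, hFs, ih]
  unfold step bit
  simp only [h.p2_pr, h.p1_pr]
  rw [hxy j hj.le, hxy (j + 1) (h.add_one_le_iff.2 hj)]

theorem F_zero_of_dvd (h : Base S) (hp : IsPow S p) (hF : Fn₂ S F) (hF0 : ∀ e, F 0 e = 0)
    (hFs : ∀ n e, F (n + 1) e = step p Q n (F n e) e) {s x n : M} (hx : p n ∣ x) :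
    F n (pr s x) = 0 := by
  refine h.ind_le (P := fun j => F j (pr s x) = 0) (n := n)
    (h.eq (F_dec h hF h.fn_id _) (h.fn_const 0)) (hF0 _) ?_ le_rfl
  intro j hj ih
  rw [hFs, ih]
  unfold step
  rw [h.p2_pr, if_neg]
  rintro ⟨h1, -⟩
  exact not_bit_of_dvd h hp ((p_dvd h hp (h.add_one_le_iff.2 hj)).trans hx) h1

theorem F_local (h : Base S) (hp : IsPow S p) (hF : Fn₂ S F) (hF0 : ∀ e, F 0 e = 0)
    (hFs : ∀ n e, F (n + 1) e = step p Q n (F n e) e) {s s' x : M}
    (hQ : ∀ u v, u < v → v ≤ top p x → Q s u v = Q s' u v) (n : M) :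
    F n (pr s x) = F n (pr s' x) := by
  refine h.ind (P := fun j => F j (pr s x) = F j (pr s' x))
    (h.eq (F_dec h hF h.fn_id _) (F_dec h hF h.fn_id _)) (by rw [hF0, hF0]) ?_ n
  intro j ih
  rw [hFs, hFs, ih]
  unfold step
  simp only [h.p2_pr, h.p1_pr]
  by_cases hc : bit p j x ∧ 0 < md (p j) x
  · rw [if_pos hc, if_pos hc]
    have h1 : top p (md (p j) x) < j := top_lt h hp hc.2 (md_spec h (p_pos h hp j) x).2
    have h2 : j ≤ top p x := le_top h hp (le_trans hc.1 (md_le h (p_pos h hp _)))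
    rw [hQ _ _ h1 h2]
  · rw [if_neg hc, if_neg hc]

theorem F_add (h : Base S) (hp : IsPow S p) (hF : Fn₂ S F) (hF0 : ∀ e, F 0 e = 0)
    (hFs : ∀ n e, F (n + 1) e = step p Q n (F n e) e) {s u x : M} (hu0 : 0 < u)
    (hx : 0 < x) (hu : u < p (bot p x)) {n : M} (hn : bot p x < n) :
    F n (pr s (u + x)) = F (bot p x) (pr s u) + Q s (top p u) (bot p x) + F n (pr s x) := by
  obtain ⟨hb1, hb2⟩ := bot_spec h hp hx
  obtain ⟨c, rfl⟩ := exists_add_of_le (h.add_one_le_iff.2 hn)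
  refine h.ind (P := fun c => F (bot p x + 1 + c) (pr s (u + x)) =
    F (bot p x) (pr s u) + Q s (top p u) (bot p x) + F (bot p x + 1 + c) (pr s x))
    (h.eq (F_dec h hF (h.fn_add (h.fn_const _) h.fn_id) _)
      (h.fn_add (h.fn_const _) (F_dec h hF (h.fn_add (h.fn_const _) h.fn_id) _))) ?_ ?_ c
  · rw [add_zero, hFs, hFs]
    have h1 : F (bot p x) (pr s (u + x)) = F (bot p x) (pr s u) := by
      refine F_congr h hF hF0 hFs fun j hj => ?_
      exact md_add_of_dvd h (p_pos h hp _) ((p_dvd h hp hj).trans hb1)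
    have h2 : F (bot p x) (pr s x) = 0 := F_zero_of_dvd h hp hF hF0 hFs hb1
    rw [h1, h2]
    have h3 : md (p (bot p x)) (u + x) = u := by
      rw [md_add_of_dvd h (p_pos h hp _) hb1, md_of_lt h hu]
    have h4 : bit p (bot p x) (u + x) := (bit_add h hp hu hb1 le_rfl).2 (bit_bot h hp hx)
    unfold step
    simp only [h.p2_pr, h.p1_pr]
    rw [h3, if_pos ⟨h4, hu0⟩, md_of_dvd h (p_pos h hp _) hb1, if_neg (by simp), add_zero]
  · intro c ih
    rw [← add_assoc, hFs, hFs, ih]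
    have hj : bot p x ≤ bot p x + 1 + c := by rw [add_assoc]; exact le_self_add
    have hdv : p (bot p x) ∣ p (bot p x + 1 + c) := p_dvd h hp hj
    have h1 : bit p (bot p x + 1 + c) (u + x) ↔ bit p (bot p x + 1 + c) x :=
      bit_add h hp hu hb1 hj
    have h2 : md (p (bot p x + 1 + c)) (u + x) = u + md (p (bot p x + 1 + c)) x :=
      md_add h (p_pos h hp _) hu hb1 hdv
    have h3 : 0 < md (p (bot p x + 1 + c)) x :=
      md_pos h (p_pos h hp _) fun hc => hb2 ((p_dvd h hp le_self_add).trans hc)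
    have h4 : top p (u + md (p (bot p x + 1 + c)) x) = top p (md (p (bot p x + 1 + c)) x) :=
      top_add h hp h3 hu (dvd_md h (p_pos h hp _) hb1 hdv)
    unfold step
    simp only [h.p2_pr, h.p1_pr]
    rw [h2, h4]
    by_cases hc : bit p (bot p x + 1 + c) x
    · rw [if_pos ⟨h1.2 hc, lt_of_lt_of_le h3 le_add_self⟩, if_pos ⟨hc, h3⟩, add_assoc]
    · rw [if_neg (fun h5 => hc (h1.1 h5.1)), if_neg (fun h5 => hc h5.1)]

end rec

end ExV

open ExV in
theorem exists_V_of_rec (h : Base S)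
    (hrec : ∀ {a : M → M}, Fn S a → ∀ {g : M → M → M → M}, Fn₃ S g →
      ∃ F : M → M → M, Fn₂ S F ∧ (∀ e, F 0 e = a e) ∧ ∀ n e, F (n + 1) e = g n (F n e) e)
    {p : M → M} (hp : IsPow S p) {Q : M → M → M → M} (hQ : Fn₃ S Q) :
    ∃ (V : M → M → M) (top bot : M → M), Fn₂ S V ∧ Fn S top ∧ Fn S bot ∧
      (∀ x, 0 < x → p (top x) ≤ x ∧ x < p (top x + 1) ∧ p (bot x) ∣ x ∧ bot x ≤ top x ∧
        ∀ k, p k ∣ x → k ≤ bot x) ∧
      (∀ s u x k, 0 < u → 0 < x → u < p k → p k ∣ x →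
        V s (u + x) = V s u + Q s (top u) (bot x) + V s x ∧ top (u + x) = top x ∧
          bot (u + x) = bot u) ∧
      (∀ s s' x, (∀ u v, u < v → v ≤ top x → Q s u v = Q s' u v) → V s x = V s' x) := by
  obtain ⟨F, hF, hF0, hFs⟩ := hrec (a := fun _ => 0) (h.fn_const 0) (fn_step h hp hQ)
  refine ⟨fun s x => F x (pr s x), top p, bot p,
    h.fn_comp₂ hF h.fn_p2 (h.fn_pr h.fn_p1 h.fn_p2), fn_top h hp, fn_bot h hp, ?_, ?_, ?_⟩
  · intro x hx
    obtain ⟨h1, h2⟩ := top_spec h hp hx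
    exact ⟨h1, h2, (bot_spec h hp hx).1, bot_le_top h hp hx, fun k hk => le_bot h hp hx hk⟩
  · intro s u x k hu0 hx hu hk
    refine ⟨?_, top_add h hp hx hu hk, bot_add h hp hu0 hu hk⟩
    have hu' : u < p (bot p x) := lt_of_lt_of_le hu (p_mono h hp (le_bot h hp hx hk))
    obtain ⟨m, hm1, hm2, hm3⟩ : ∃ m, u + x ≤ m ∧ bot p x < m ∧ bot p x ≤ m :=
      ⟨u + x + (bot p x + 1), le_self_add,
        lt_of_lt_of_le (lt_add_of_pos_right _ one_pos) le_add_self, by
          rw [← add_assoc, add_right_comm]; exact le_add_self⟩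
    have e1 : F (u + x) (pr s (u + x)) = F m (pr s (u + x)) :=
      (F_stab h hp hF hFs (lt_p h hp _) hm1).symm
    have e2 : F x (pr s x) = F m (pr s x) :=
      (F_stab h hp hF hFs (lt_p h hp _) (le_add_self.trans hm1)).symm
    have e3 : F u (pr s u) = F m (pr s u) :=
      (F_stab h hp hF hFs (lt_p h hp _) (le_self_add.trans hm1)).symm
    have e4 : F m (pr s u) = F (bot p x) (pr s u) := F_stab h hp hF hFs hu' hm3
    change F (u + x) (pr s (u + x)) = F u (pr s u) + Q s (top p u) (bot p x) + F x (pr s x)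
    rw [e1, e2, e3, e4]
    exact F_add h hp hF hF0 hFs hu0 hx hu' hm2
  · intro s s' x hQ'
    exact F_local h hp hF hF0 hFs hQ' x

theorem exists_V (h : Base S) {p : M → M} (hp : IsPow S p) {Q : M → M → M → M} (hQ : Fn₃ S Q) :
    ∃ (V : M → M → M) (top bot : M → M), Fn₂ S V ∧ Fn S top ∧ Fn S bot ∧
      (∀ x, 0 < x → p (top x) ≤ x ∧ x < p (top x + 1) ∧ p (bot x) ∣ x ∧ bot x ≤ top x ∧
        ∀ k, p k ∣ x → k ≤ bot x) ∧
      (∀ s u x k, 0 < u → 0 < x → u < p k → p k ∣ x →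
        V s (u + x) = V s u + Q s (top u) (bot x) + V s x ∧ top (u + x) = top x ∧
          bot (u + x) = bot u) ∧
      (∀ s s' x, (∀ u v, u < v → v ≤ top x → Q s u v = Q s' u v) → V s x = V s' x) :=
  exists_V_of_rec h (fun ha => fun hg => h.exists_rec ha hg) hp hQ

end Pool.Agent.Helper56.TH
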